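import Pool.Agent.Lib.MP_dffe52_co.Samp2.F

/-! Thomassen's question on odd cycles for graphs whose connectivity is at least a large constant
times the logarithm of the number of vertices: almost all of the connectivity is kept. -/

set_option autoImplicit false

namespace Pool.Agent.Results.MP_dffe52_co.AlmostAllConnectivity

/-- Let `G` be a non-bipartite `N`-connected graph on `n` vertices. If `30 log n + 11 k + 44 ≤ N`,
or if `exp (10 / δ) log n ≤ N` and `k ≤ (1 - δ) N` for some real `0 < δ < 1`, then `G` has an odd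
cycle `C` such that `G - V(C)` is `k`-connected. -/
theorem result (k N : ℕ) (V : Type) [Fintype V] (G : SimpleGraph V)
    (hN : 30 * Real.log (Fintype.card V) + 11 * k + 44 ≤ N ∨
      ∃ δ : ℝ, 0 < δ ∧ δ < 1 ∧ Real.exp (10 / δ) * Real.log (Fintype.card V) ≤ N ∧
        (k : ℝ) ≤ (1 - δ) * N)
    (hG : N < Fintype.card V ∧
      ∀ S : Finset V, S.card < N → (G.induce ((↑S : Set V)ᶜ)).Connected)
    (hodd : ∃ (v : V) (p : G.Walk v v), p.IsCycle ∧ Odd p.length) :
    ∃ (v : V) (p : G.Walk v v), p.IsCycle ∧ Odd p.length ∧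
      k < ({x : V | x ∉ p.support}).ncard ∧
      ∀ S : Finset V, S.card < k →
        (G.induce ({x : V | x ∉ p.support} \ (↑S : Set V))).Connected := by
  rcases hN with hN | ⟨δ, hδ0, hδ1, hN, hk⟩
  · exact Pool.Agent.VSamp.main_a k N V G hN hG hodd
  · exact Pool.Agent.VSamp.main_b δ hδ0 hδ1 k N V G hN hk hG hodd

end Pool.Agent.Results.MP_dffe52_co.AlmostAllConnectivity
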