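import Pool.Agent.Lib.MP_dffe52_co.Detour.I

/-! Thomassen's question on odd cycles for Cartesian products of graphs. -/

set_option autoImplicit false

namespace Pool.Agent.Results.MP_dffe52_co.CartesianProducts

/-- If the Cartesian product of two graphs with at least two vertices each is
`(2 k + 1)`-connected and contains an odd cycle, then it has an odd cycle whose removal leaves a
`k`-connected graph. -/
theorem result (k : ℕ) (V₁ V₂ : Type) [Fintype V₁] [Fintype V₂] (F₁ : SimpleGraph V₁)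
    (F₂ : SimpleGraph V₂) (h₁ : 2 ≤ Fintype.card V₁) (h₂ : 2 ≤ Fintype.card V₂)
    (hG : 2 * k + 1 < Fintype.card (V₁ × V₂) ∧
      ∀ S : Finset (V₁ × V₂), S.card < 2 * k + 1 →
        ((F₁.boxProd F₂).induce ((↑S : Set (V₁ × V₂))ᶜ)).Connected)
    (hodd : ∃ (v : V₁ × V₂) (p : (F₁.boxProd F₂).Walk v v), p.IsCycle ∧ Odd p.length) :
    ∃ (v : V₁ × V₂) (p : (F₁.boxProd F₂).Walk v v), p.IsCycle ∧ Odd p.length ∧
      k < ({x : V₁ × V₂ | x ∉ p.support}).ncard ∧
      ∀ S : Finset (V₁ × V₂), S.card < k →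
        ((F₁.boxProd F₂).induce ({x : V₁ × V₂ | x ∉ p.support} \
          (↑S : Set (V₁ × V₂)))).Connected :=
  Pool.Agent.Detour.main_prod k V₁ V₂ F₁ F₂ h₁ h₂ hG hodd

end Pool.Agent.Results.MP_dffe52_co.CartesianProducts
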