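import Pool.Agent.Lib.MP_dffe52_co.Detour.F

/-! Thomassen's question on odd cycles for graphs in which sets with small boundary expand. -/

set_option autoImplicit false

namespace Pool.Agent.Results.MP_dffe52_co.Expansion

/-- Let `p` be a shortest odd cycle of a finite graph `G`. Suppose that every nonempty set `A` of at
most half of the vertices that has fewer than `p.length + k` neighbours outside `A` contains a
vertex with at least `k + 3` neighbours outside `A`. Then `G - V(p)` is `k`-connected. -/
theorem result (k : ℕ) (V : Type) [Fintype V] (G : SimpleGraph V)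
    (v : V) (p : G.Walk v v) (hp : p.IsCycle) (hodd : Odd p.length)
    (hmin : ∀ (u : V) (q : G.Walk u u), q.IsCycle → Odd q.length → p.length ≤ q.length)
    (hexp : ∀ A : Finset V, A.Nonempty → 2 * A.card ≤ Fintype.card V →
      ({y : V | y ∉ A ∧ ∃ a ∈ A, G.Adj a y}).ncard < p.length + k →
      ∃ a ∈ A, k + 3 ≤ (G.neighborSet a \ (↑A : Set V)).ncard) :
    k < ({x : V | x ∉ p.support}).ncard ∧
      ∀ S : Finset V, S.card < k →
        (G.induce ({x : V | x ∉ p.support} \ (↑S : Set V))).Connected :=
  Pool.Agent.Detour.main_exp k V G v p hp hodd hmin hexp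

end Pool.Agent.Results.MP_dffe52_co.Expansion
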