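import Pool.Agent.Lib.MP_dffe52_co.Detour.E
import Pool.Agent.Lib.MP_dffe52_co.TR.C

/-! Thomassen's question on odd cycles for graphs with short detours around the vertices of a
shortest odd cycle, for graphs in which neighbourhoods can be transported along edges, and for
Cayley graphs. The number of vertices is not bounded in terms of the connectivity. -/

set_option autoImplicit false

namespace Pool.Agent.Results.MP_dffe52_co.LocalDetours

/-- A shortest odd cycle can be removed, leaving a `k`-connected graph, in each of three cases.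
(1) The graph stays connected after the deletion of fewer than `k` vertices, the vertices of the
cycle have degree at least `k + 3`, and any two neighbours of a vertex of the cycle are joined by a
walk of length at most `r`, for some `r`, even after the deletion of any `k + r + 2` other vertices.
(2) Every vertex `v` has a set `T v` of at least `3 k + 2 c + 7` neighbours all but at most `c` of
which can be transported injectively along each edge from `v` to `u`. (3) Cayley graphs whose
connection set `S` contains a set `T` of at least `3 k + 2 c + 7` elements such that for each `s`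
in `S` all but at most `c` of the conjugates of elements of `T` by `s` lie in `S`. -/
theorem result :
    (∀ (k : ℕ) (V : Type) [Fintype V] (G : SimpleGraph V),
      (∀ S : Finset V, S.card < k → (G.induce ((↑S : Set V)ᶜ)).Connected) →
      ∀ (v : V) (p : G.Walk v v), p.IsCycle → Odd p.length →
      (∀ (u : V) (q : G.Walk u u), q.IsCycle → Odd q.length → p.length ≤ q.length) →
      (∀ x ∈ p.support, k + 3 ≤ (G.neighborSet x).ncard) →
      (∀ x ∈ p.support, ∀ u w : V, G.Adj x u → G.Adj x w → u ≠ w →
        ∃ r : ℕ, ∀ X : Finset V, X.card ≤ k + r + 2 → u ∉ X → w ∉ X →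
          ∃ q : G.Walk u w, q.length ≤ r ∧ ∀ y ∈ q.support, y ∉ X) →
      k < ({x : V | x ∉ p.support}).ncard ∧
        ∀ S : Finset V, S.card < k →
          (G.induce ({x : V | x ∉ p.support} \ (↑S : Set V))).Connected) ∧
    (∀ (k c : ℕ) (V : Type) [Fintype V] (G : SimpleGraph V) (T : V → Set V),
      G.Connected →
      (∀ v, T v ⊆ G.neighborSet v ∧ 3 * k + 2 * c + 7 ≤ (T v).ncard) →
      (∀ v u : V, G.Adj v u → ∃ (D : Set V) (τ : V → V), D ⊆ T v ∧ (T v \ D).ncard ≤ c ∧
        Set.InjOn τ D ∧ ∀ w ∈ D, G.Adj u (τ w) ∧ (τ w = w ∨ G.Adj w (τ w))) →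
      ∀ (v : V) (p : G.Walk v v), p.IsCycle → Odd p.length →
      (∀ (u : V) (q : G.Walk u u), q.IsCycle → Odd q.length → p.length ≤ q.length) →
      k < ({x : V | x ∉ p.support}).ncard ∧
        (∀ S : Finset V, S.card < k →
          (G.induce ({x : V | x ∉ p.support} \ (↑S : Set V))).Connected) ∧
        ∀ X : Set V, (∀ x, (G.neighborSet x ∩ X).ncard < k) →
          (G.induce ({x : V | x ∉ p.support} \ X)).Connected) ∧
    (∀ (k c : ℕ) (V : Type) [Fintype V] [Group V] (G : SimpleGraph V) (S T : Set V),
      (∀ x y, G.Adj x y ↔ x ≠ y ∧ x⁻¹ * y ∈ S) → G.Connected → T ⊆ S → (1 : V) ∉ T →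
      3 * k + 2 * c + 7 ≤ T.ncard →
      (∀ s ∈ S, ({t | t ∈ T ∧ s⁻¹ * t * s ∉ S} : Set V).ncard ≤ c) →
      ∀ (v : V) (p : G.Walk v v), p.IsCycle → Odd p.length →
      (∀ (u : V) (q : G.Walk u u), q.IsCycle → Odd q.length → p.length ≤ q.length) →
      k < ({x : V | x ∉ p.support}).ncard ∧
        ∀ S : Finset V, S.card < k →
          (G.induce ({x : V | x ∉ p.support} \ (↑S : Set V))).Connected) := by
  refine ⟨?_, ?_, ?_⟩
  · intro k V _ G hG v p _ hodd hmin hdeg hdet
    exact Pool.Agent.Detour.main_det k V G hG v p hodd hmin hdeg hdet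
  · intro k c V _ G T hG hT hτ v p _ hodd hmin
    have hTr : DFTR.Transport G T c := ⟨fun v => (hT v).1, hτ⟩
    have h1 := DFTR.main G k c T hG hTr (fun v => (hT v).2) v p hodd hmin
    exact ⟨h1.1, h1.2, fun X hX =>
      DFTR.main_sparse G k c T hG hTr (fun v => (hT v).2) v p hodd hmin X hX⟩
  · intro k c V _ _ G S T hadj hG hTS h1 hT hc v p _ hodd hmin
    refine DFTR.main G k c _ hG (DFTR.transport_cayley S T hTS h1 G hadj c hc) (fun x => ?_) v p
      hodd hmin
    rw [DFTR.ncard_cayley T x]
    exact hT

end Pool.Agent.Results.MP_dffe52_co.LocalDetours
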